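import Pool.Agent.Helper61.TQ.Core

set_option autoImplicit false

/-! # (ISO) isolation -/

namespace Pool.Agent.Helper61.TQ

theorem iso_ind_true {p : Prop} (h : p) : ind p = 1 := by unfold ind; exact if_pos h

theorem iso_ind_false {p : Prop} (h : ¬ p) : ind p = 0 := by unfold ind; exact if_neg h

theorem iso_ind_nonneg (p : Prop) : 0 ≤ ind p := by
  by_cases h : p
  · rw [iso_ind_true h]; norm_num
  · rw [iso_ind_false h]

theorem iso_sum (hAVG : ST_AVG) {ι : Type} (n : ℕ) (s : Finset ι) (f : ι → W → ℝ) :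
    avg n (fun w => ∑ i ∈ s, f i w) = ∑ i ∈ s, avg n (f i) := by
  classical
  obtain ⟨-, h2, -, h4, -⟩ := hAVG
  induction s using Finset.induction_on with
  | empty =>
    simp only [Finset.sum_empty]
    exact h4 n 0
  | insert a s ha ih =>
    rw [Finset.sum_insert ha, ← ih, ← h2]
    congr 1
    funext w
    rw [Finset.sum_insert ha]

theorem iso_sub (hAVG : ST_AVG) (n : ℕ) (f g : W → ℝ) :
    avg n (fun w => f w - g w) = avg n f - avg n g := by
  obtain ⟨-, h2, h3, -⟩ := hAVG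
  have h : (fun w => f w - g w) = (fun w => f w + (-1) * g w) := by
    funext w; ring
  rw [h, h2 n f (fun w => (-1) * g w), h3]
  ring

/-- pointwise estimate -/
theorem iso_pt (C D : Finset W) (hD : D ⊆ C) (z : W → Prop) :
    ∑ c ∈ D, (ind (z c) - ∑ c' ∈ C.erase c, ind (z c ∧ z c')) ≤
      ind (∃ c ∈ D, z c ∧ ∀ c' ∈ C, z c' → c' = c) := by
  classical
  by_cases hiso : ∃ c ∈ D, z c ∧ ∀ c' ∈ C, z c' → c' = c
  · rw [iso_ind_true hiso]
    obtain ⟨c, hc, hzc, hu⟩ := hiso
    rw [← Finset.add_sum_erase D _ hc]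
    have h1 : ∀ d ∈ D.erase c, ind (z d) - ∑ c' ∈ C.erase d, ind (z d ∧ z c') ≤ 0 := by
      intro d hd
      have hnd : ¬ z d := fun h => (Finset.ne_of_mem_erase hd)
        (hu d (hD (Finset.mem_of_mem_erase hd)) h)
      rw [iso_ind_false hnd]
      have := Finset.sum_nonneg (s := C.erase d) (f := fun c' => ind (z d ∧ z c'))
        (fun _ _ => iso_ind_nonneg _)
      linarith
    have h2 := Finset.sum_nonpos h1
    have h3 := Finset.sum_nonneg (s := C.erase c) (f := fun c' => ind (z c ∧ z c'))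
      (fun _ _ => iso_ind_nonneg _)
    rw [iso_ind_true hzc]
    linarith
  · rw [iso_ind_false hiso]
    apply Finset.sum_nonpos
    intro c hc
    by_cases hz : z c
    · have : ∃ c' ∈ C, z c' ∧ c' ≠ c := by
        by_contra hcon
        push Not at hcon
        exact hiso ⟨c, hc, hz, hcon⟩
      obtain ⟨c', hc', hz', hne⟩ := this
      have h1 : ind (z c ∧ z c') ≤ ∑ c' ∈ C.erase c, ind (z c ∧ z c') :=
        Finset.single_le_sum (f := fun c' => ind (z c ∧ z c')) (fun _ _ => iso_ind_nonneg _)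
          (Finset.mem_erase.2 ⟨hne, hc'⟩)
      rw [iso_ind_true ⟨hz, hz'⟩] at h1
      rw [iso_ind_true hz]
      linarith
    · rw [iso_ind_false hz]
      have := Finset.sum_nonneg (s := C.erase c) (f := fun c' => ind (z c ∧ z c'))
        (fun _ _ => iso_ind_nonneg _)
      linarith

theorem st_ISO (hAVG : ST_AVG) (hHASH : ST_HASH) : ST_ISO := by
  classical
  intro n k C D hk hC hD h1 h2 h3
  obtain ⟨hx, hxy⟩ := hHASH n k hk
  have hmono := hAVG.1
  refine le_trans ?_ (hmono (hs n) _ _ (fun s _ => iso_pt C D hD (fun c => hz n k s c = true)))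
  rw [iso_sum hAVG]
  have hval : ∀ c ∈ D, avg (hs n) (fun s => ind (hz n k s c = true) -
      ∑ c' ∈ C.erase c, ind (hz n k s c = true ∧ hz n k s c' = true)) =
      (1 / 2) ^ k - ((C.card : ℝ) - 1) * (1 / 4) ^ k := by
    intro c hc
    have hcC := hD hc
    rw [iso_sub hAVG, iso_sum hAVG, hx c (hC c hcC)]
    have : ∀ c' ∈ C.erase c, avg (hs n)
        (fun s => ind (hz n k s c = true ∧ hz n k s c' = true)) = (1 / 4) ^ k := by
      intro c' hc'
      exact hxy c c' (hC c hcC) (hC c' (Finset.mem_of_mem_erase hc'))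
        (Finset.ne_of_mem_erase hc').symm
    rw [Finset.sum_congr rfl this, Finset.sum_const, nsmul_eq_mul, Finset.card_erase_of_mem hcC,
      Nat.cast_sub (Finset.card_pos.2 ⟨c, hcC⟩)]
    push_cast
    ring
  rw [Finset.sum_congr rfl hval, Finset.sum_const, nsmul_eq_mul]
  have e1 : 2 * (C.card : ℝ) ≤ 2 ^ k := by exact_mod_cast h1
  have e2 : (2 : ℝ) ^ k < 4 * C.card := by exact_mod_cast h2
  have e3 : (C.card : ℝ) ≤ 2 * D.card := by exact_mod_cast h3
  obtain ⟨q, hq⟩ : ∃ q : ℝ, q = 2 ^ k := ⟨_, rfl⟩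
  have q0 : 0 < q := by rw [hq]; positivity
  have f1 : (1 / 2 : ℝ) ^ k = 1 / q := by rw [hq, div_pow, one_pow]
  have f2 : (1 / 4 : ℝ) ^ k = 1 / (q * q) := by
    rw [hq, div_pow, one_pow, ← mul_pow]; norm_num
  rw [f1, f2]
  rw [← hq] at e1 e2
  obtain ⟨c, hc⟩ : ∃ c : ℝ, c = C.card := ⟨_, rfl⟩
  obtain ⟨d, hd⟩ : ∃ d : ℝ, d = D.card := ⟨_, rfl⟩
  rw [← hc] at e1 e2 e3 ⊢
  rw [← hd] at e3 ⊢
  have g1 : d * (1 / q - (c - 1) * (1 / (q * q))) = d * (q - c + 1) / (q * q) := by
    field_simp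
    ring
  rw [g1, div_le_div_iff₀ (by norm_num) (by positivity)]
  have d0 : 0 ≤ d := by linarith
  nlinarith [mul_le_mul_of_nonneg_left (show q / 2 ≤ q - c + 1 by linarith) d0,
    mul_le_mul_of_nonneg_left (show q / 8 ≤ d by linarith) q0.le]

end Pool.Agent.Helper61.TQ
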